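import Mathlib

/-!
# The graph discrepancy Ramsey function (MP_9cb5ab_co): definitions
-/

set_option autoImplicit false

namespace Pool.Agent.DR

open Finset

/-- The split of the pairs of `Fin n` with the pairs in `A` in the first class and the pairs not in
`A` in the second class: both classes contain more than `α (|X| choose 2)` pairs inside `X`. -/
def Bal {n : ℕ} (α : ℝ) (A : Finset (Finset (Fin n))) (X : Finset (Fin n)) : Prop :=
  α * (X.card.choose 2 : ℕ) < (((X.powersetCard 2).filter fun e => e ∈ A).card : ℝ) ∧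
  α * (X.card.choose 2 : ℕ) < (((X.powersetCard 2).filter fun e => e ∉ A).card : ℝ)

/-- `F(n, α)`: the least `m ≥ 1` such that for some split of the pairs of an `n`-set each of the two
classes contains more than `α (|X| choose 2)` pairs inside `X`, for every `X` with `|X| ≥ m`. -/
noncomputable def F (n : ℕ) (α : ℝ) : ℕ :=
  sInf {m : ℕ | 1 ≤ m ∧ ∃ A : Finset (Finset (Fin n)), ∀ X : Finset (Fin n),
    m ≤ X.card → Bal α A X}

/-- `I(a) = log 2 + a log a + (1 - a) log (1 - a)` -/
noncomputable def I (a : ℝ) : ℝ :=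
  Real.log 2 + a * Real.log a + (1 - a) * Real.log (1 - a)

theorem F_mem (n : ℕ) (α : ℝ) : 1 ≤ F n α ∧ ∃ A : Finset (Finset (Fin n)), ∀ X : Finset (Fin n),
    F n α ≤ X.card → Bal α A X := by
  have hne : {m : ℕ | 1 ≤ m ∧ ∃ A : Finset (Finset (Fin n)), ∀ X : Finset (Fin n),
      m ≤ X.card → Bal α A X}.Nonempty := by
    refine ⟨n + 1, by omega, ∅, fun X hX => ?_⟩
    have := Finset.card_le_univ X
    rw [Fintype.card_fin] at this
    omega
  exact Nat.sInf_mem hne

theorem F_le {n m : ℕ} {α : ℝ} (hm : 1 ≤ m) (A : Finset (Finset (Fin n)))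
    (h : ∀ X : Finset (Fin n), m ≤ X.card → Bal α A X) : F n α ≤ m :=
  Nat.sInf_le ⟨hm, A, h⟩

theorem I_eq (a : ℝ) : I a = Real.log 2 - Real.binEntropy a := by
  rw [I, Real.binEntropy, Real.log_inv, Real.log_inv]
  ring

theorem I_symm (a : ℝ) : I (1 - a) = I a := by
  rw [I, I]
  ring_nf

theorem I_continuous : Continuous I := by
  have : I = fun a => Real.log 2 - Real.binEntropy a := funext I_eq
  rw [this]
  exact continuous_const.sub Real.binEntropy_continuous

theorem I_nonneg (a : ℝ) : 0 ≤ I a := by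
  rw [I_eq]
  have := Real.binEntropy_le_log_two (p := a)
  linarith

theorem I_pos {a : ℝ} (h : a ≠ 1 / 2) : 0 < I a := by
  rw [I_eq]
  have := Real.binEntropy_lt_log_two (p := a)
  have h2 : Real.binEntropy a < Real.log 2 := this.2 (by simpa using h)
  linarith

end Pool.Agent.DR
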