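import Pool.Agent.Lib_helper71.DR.Defs

/-!
# The graph discrepancy Ramsey function: the random split
-/

set_option autoImplicit false

namespace Pool.Agent.DR

open Finset

/-- the generating function of the number of first class pairs inside `Q` -/
theorem sum_first {β : Type*} [DecidableEq β] (P Q : Finset β) (hQ : Q ⊆ P) (t : ℝ) :
    ∑ A ∈ P.powerset, t ^ (Q.filter fun e => e ∈ A).card =
      (1 + t) ^ Q.card * 2 ^ (P.card - Q.card) := by
  have h := Finset.prod_add (fun e => if e ∈ Q then t else (1 : ℝ)) (fun _ => (1 : ℝ)) P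
  have h1 : ∏ e ∈ P, ((if e ∈ Q then t else (1 : ℝ)) + 1) =
      (1 + t) ^ Q.card * 2 ^ (P.card - Q.card) := by
    rw [← Finset.prod_sdiff hQ]
    have e1 : ∏ e ∈ P \ Q, ((if e ∈ Q then t else (1 : ℝ)) + 1) = 2 ^ (P.card - Q.card) := by
      rw [← Finset.card_sdiff_of_subset hQ, ← Finset.prod_const]
      refine Finset.prod_congr rfl fun e he => ?_
      rw [if_neg (Finset.mem_sdiff.1 he).2]
      norm_num
    have e2 : ∏ e ∈ Q, ((if e ∈ Q then t else (1 : ℝ)) + 1) = (1 + t) ^ Q.card := by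
      rw [← Finset.prod_const]
      refine Finset.prod_congr rfl fun e he => ?_
      rw [if_pos he]
      ring
    rw [e1, e2]
    ring
  rw [← h1, h]
  refine Finset.sum_congr rfl fun A hA => ?_
  rw [Finset.prod_const_one, mul_one, ← Finset.prod_filter_mul_prod_filter_not A (fun e => e ∈ Q)]
  have e1 : ∏ e ∈ A.filter (fun e => e ∈ Q), (if e ∈ Q then t else (1 : ℝ)) =
      t ^ (Q.filter fun e => e ∈ A).card := by
    have : A.filter (fun e => e ∈ Q) = Q.filter fun e => e ∈ A := by
      ext e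
      simp only [Finset.mem_filter]
      tauto
    rw [this, ← Finset.prod_const]
    refine Finset.prod_congr rfl fun e he => ?_
    rw [if_pos (Finset.mem_filter.1 he).1]
  have e2 : ∏ e ∈ A.filter (fun e => ¬ e ∈ Q), (if e ∈ Q then t else (1 : ℝ)) = 1 := by
    refine Finset.prod_eq_one fun e he => ?_
    rw [if_neg (Finset.mem_filter.1 he).2]
  rw [e1, e2, mul_one]

/-- the generating function of the number of second class pairs inside `Q` -/
theorem sum_second {β : Type*} [DecidableEq β] (P Q : Finset β) (hQ : Q ⊆ P) (t : ℝ) :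
    ∑ A ∈ P.powerset, t ^ (Q.filter fun e => e ∉ A).card =
      (1 + t) ^ Q.card * 2 ^ (P.card - Q.card) := by
  rw [← sum_first P Q hQ t]
  refine Finset.sum_bij' (fun A _ => P \ A) (fun A _ => P \ A) ?_ ?_ ?_ ?_ ?_
  · intro A hA
    exact Finset.mem_powerset.2 Finset.sdiff_subset
  · intro A hA
    exact Finset.mem_powerset.2 Finset.sdiff_subset
  · intro A hA
    exact Finset.sdiff_sdiff_eq_self (Finset.mem_powerset.1 hA)
  · intro A hA
    exact Finset.sdiff_sdiff_eq_self (Finset.mem_powerset.1 hA)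
  · intro A hA
    congr 2
    refine Finset.filter_congr fun e he => ?_
    simp only [Finset.mem_sdiff, hQ he, true_and]

theorem key_exp {α : ℝ} (h0 : 0 < α) (h1 : α < 1 / 2) (M : ℕ) :
    (α / (1 - α)) ^ (-(α * M)) * (1 + α / (1 - α)) ^ M = Real.exp (-(M * I α)) * 2 ^ M := by
  have h2 : (0 : ℝ) < 1 - α := by linarith
  have ht : 0 < α / (1 - α) := div_pos h0 h2
  have e1 : 1 + α / (1 - α) = (1 - α)⁻¹ := by
    field_simp
    ring
  rw [e1, Real.rpow_def_of_pos ht, Real.log_div h0.ne' h2.ne']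
  have e2 : ((1 - α)⁻¹) ^ M = Real.exp (-(M * Real.log (1 - α))) := by
    rw [inv_pow, Real.exp_neg, Real.exp_nat_mul, Real.exp_log h2]
  have e3 : (2 : ℝ) ^ M = Real.exp (M * Real.log 2) := by
    rw [Real.exp_nat_mul, Real.exp_log (by norm_num)]
  rw [e2, e3, ← Real.exp_add, ← Real.exp_add, I]
  congr 1
  ring

/-- The random split is good for `m` if `log n + log 4 ≤ (m - 1) I(α) / 2`. -/
theorem upper {n m : ℕ} {α : ℝ} (h0 : 0 < α) (h1 : α < 1 / 2) (hm : 1 ≤ m) (hn : 1 ≤ n)
    (h : Real.log n + Real.log 4 ≤ ((m : ℝ) - 1) / 2 * I α) : F n α ≤ m := by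
  classical
  set P : Finset (Finset (Fin n)) := (univ : Finset (Fin n)).powersetCard 2 with hP
  set t : ℝ := α / (1 - α) with ht_def
  have h2 : (0 : ℝ) < 1 - α := by linarith
  have ht : 0 < t := div_pos h0 h2
  have ht1 : t < 1 := by
    rw [ht_def, div_lt_one h2]
    linarith
  have hsub : ∀ X : Finset (Fin n), X.powersetCard 2 ⊆ P := fun X =>
    Finset.powersetCard_mono (Finset.subset_univ X)
  by_contra hcon
  have hbad : ∀ A : Finset (Finset (Fin n)), ∃ X : Finset (Fin n), m ≤ X.card ∧ ¬ Bal α A X := by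
    intro A
    by_contra hA
    push Not at hA
    exact hcon (F_le hm A hA)
  -- the weights
  set W : Finset (Finset (Fin n)) → Finset (Fin n) → ℝ := fun A X =>
    t ^ (-(α * (X.card.choose 2 : ℕ))) * t ^ ((X.powersetCard 2).filter fun e => e ∈ A).card +
    t ^ (-(α * (X.card.choose 2 : ℕ))) * t ^ ((X.powersetCard 2).filter fun e => e ∉ A).card
    with hW
  have hWnn : ∀ A X, 0 ≤ W A X := fun A X => by
    simp only [hW]
    positivity
  have hW1 : ∀ A X, ¬ Bal α A X → 1 ≤ W A X := by
    intro A X hX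
    have key : ∀ r : ℕ, (r : ℝ) ≤ α * (X.card.choose 2 : ℕ) →
        1 ≤ t ^ (-(α * (X.card.choose 2 : ℕ))) * t ^ r := by
      intro r hr
      rw [← Real.rpow_natCast t r, ← Real.rpow_add ht]
      exact Real.one_le_rpow_of_pos_of_le_one_of_nonpos ht ht1.le (by linarith)
    rw [Bal, not_and_or, not_lt, not_lt] at hX
    have hp : (0 : ℝ) < t ^ (-(α * (X.card.choose 2 : ℕ))) := Real.rpow_pos_of_pos ht _
    simp only [hW]
    rcases hX with hX | hX
    · have := key _ hX
      have h3 : 0 ≤ t ^ (-(α * (X.card.choose 2 : ℕ))) *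
        t ^ ((X.powersetCard 2).filter fun e => e ∉ A).card := by positivity
      linarith
    · have := key _ hX
      have h3 : 0 ≤ t ^ (-(α * (X.card.choose 2 : ℕ))) *
        t ^ ((X.powersetCard 2).filter fun e => e ∈ A).card := by positivity
      linarith
  set S : Finset (Finset (Fin n)) := univ.filter fun X => m ≤ X.card with hS
  -- lower bound of the double sum
  have hlow : (2 : ℝ) ^ P.card ≤ ∑ A ∈ P.powerset, ∑ X ∈ S, W A X := by
    have e1 : (2 : ℝ) ^ P.card = ∑ A ∈ P.powerset, (1 : ℝ) := by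
      rw [Finset.sum_const, Finset.card_powerset, nsmul_eq_mul, mul_one]
      push_cast
      rfl
    rw [e1]
    refine Finset.sum_le_sum fun A _ => ?_
    obtain ⟨X, hX, hXb⟩ := hbad A
    refine (hW1 A X hXb).trans (Finset.single_le_sum (f := fun X => W A X)
      (fun Y _ => hWnn A Y) (Finset.mem_filter.2 ⟨Finset.mem_univ X, hX⟩))
  -- the exact value for one set
  have hone : ∀ X : Finset (Fin n), ∑ A ∈ P.powerset, W A X =
      2 * Real.exp (-((X.card.choose 2 : ℕ) * I α)) * 2 ^ P.card := by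
    intro X
    have hc : (X.powersetCard 2).card = X.card.choose 2 := Finset.card_powersetCard 2 X
    have hle : X.card.choose 2 ≤ P.card := by
      rw [← hc]
      exact Finset.card_le_card (hsub X)
    simp only [hW]
    rw [Finset.sum_add_distrib, ← Finset.mul_sum, ← Finset.mul_sum, sum_first P _ (hsub X),
      sum_second P _ (hsub X), hc]
    have e1 := key_exp h0 h1 (X.card.choose 2)
    have e2 : (2 : ℝ) ^ P.card = 2 ^ (X.card.choose 2) * 2 ^ (P.card - X.card.choose 2) := by
      rw [← pow_add, Nat.add_sub_cancel' hle]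
    rw [e2, ← mul_assoc, e1]
    ring
  -- the bound for one set
  have hn0 : (0 : ℝ) < n := by exact_mod_cast hn
  have hx : ∀ X ∈ S, Real.exp (-((X.card.choose 2 : ℕ) * I α)) ≤ (1 / (4 * (n : ℝ))) ^ X.card := by
    intro X hX
    have hXm : m ≤ X.card := (Finset.mem_filter.1 hX).2
    have hXm' : (m : ℝ) ≤ X.card := by exact_mod_cast hXm
    have hI : 0 ≤ I α := I_nonneg α
    have e1 : ((X.card.choose 2 : ℕ) : ℝ) = X.card * ((X.card : ℝ) - 1) / 2 := Nat.cast_choose_two ℝ _
    have e2 : (1 / (4 * (n : ℝ))) ^ X.card = Real.exp (-(X.card * (Real.log n + Real.log 4))) := by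
      rw [← Real.log_mul hn0.ne' (by norm_num), Real.exp_neg, Real.exp_nat_mul,
        Real.exp_log (by positivity), ← inv_pow]
      congr 1
      field_simp
    rw [e1, e2]
    apply Real.exp_le_exp.2
    have e3 : Real.log n + Real.log 4 ≤ ((X.card : ℝ) - 1) / 2 * I α :=
      h.trans (mul_le_mul_of_nonneg_right (by linarith) hI)
    have e4 := mul_le_mul_of_nonneg_left e3 (Nat.cast_nonneg X.card)
    linarith
  -- the sum over all nonempty sets
  have hsum : ∑ X ∈ S, (1 / (4 * (n : ℝ))) ^ X.card ≤ (1 + 1 / (4 * (n : ℝ))) ^ n - 1 := by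
    have e1 : ∑ X ∈ (univ : Finset (Fin n)).powerset, (1 / (4 * (n : ℝ))) ^ X.card *
        (1 : ℝ) ^ ((univ : Finset (Fin n)).card - X.card) = (1 / (4 * (n : ℝ)) + 1) ^ n := by
      rw [Finset.sum_pow_mul_eq_add_pow, Finset.card_univ, Fintype.card_fin]
    have e2 : ∑ X ∈ (univ : Finset (Fin n)).powerset, (1 / (4 * (n : ℝ))) ^ X.card =
        (1 + 1 / (4 * (n : ℝ))) ^ n := by
      rw [add_comm, ← e1]
      refine Finset.sum_congr rfl fun X _ => ?_
      rw [one_pow, mul_one]
    have e3 : insert ∅ S ⊆ (univ : Finset (Fin n)).powerset := by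
      intro X _
      exact Finset.mem_powerset.2 (Finset.subset_univ X)
    have e4 : (∅ : Finset (Fin n)) ∉ S := by
      rw [hS, Finset.mem_filter]
      rintro ⟨-, h3⟩
      rw [Finset.card_empty] at h3
      omega
    have e5 := Finset.sum_le_sum_of_subset_of_nonneg e3
      (f := fun X : Finset (Fin n) => (1 / (4 * (n : ℝ))) ^ X.card) (fun X _ _ => by positivity)
    rw [Finset.sum_insert e4, Finset.card_empty, pow_zero, e2] at e5
    linarith
  have hexp : (1 + 1 / (4 * (n : ℝ))) ^ n < 3 / 2 := by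
    have e1 : (1 + 1 / (4 * (n : ℝ))) ^ n ≤ Real.exp (1 / 4) := by
      have e2 : 1 + 1 / (4 * (n : ℝ)) ≤ Real.exp (1 / (4 * (n : ℝ))) := by
        have := Real.add_one_le_exp (1 / (4 * (n : ℝ)))
        linarith
      calc (1 + 1 / (4 * (n : ℝ))) ^ n ≤ (Real.exp (1 / (4 * (n : ℝ)))) ^ n :=
            pow_le_pow_left₀ (by positivity) e2 n
        _ = Real.exp (n * (1 / (4 * (n : ℝ)))) := (Real.exp_nat_mul _ _).symm
        _ = Real.exp (1 / 4) := by
          congr 1
          field_simp
    have e3 : Real.exp (1 / 4) < 3 / 2 := by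
      have e4 : (Real.exp (1 / 4)) ^ 4 = Real.exp 1 := by
        rw [← Real.exp_nat_mul]
        norm_num
      have e5 := Real.exp_one_lt_d9
      by_contra hc
      push Not at hc
      have e6 : (3 / 2 : ℝ) ^ 4 ≤ (Real.exp (1 / 4)) ^ 4 := pow_le_pow_left₀ (by norm_num) hc 4
      rw [e4] at e6
      norm_num at e6
      linarith
    linarith
  -- conclusion
  have hfin : ∑ A ∈ P.powerset, ∑ X ∈ S, W A X < 2 ^ P.card := by
    rw [Finset.sum_comm]
    calc ∑ X ∈ S, ∑ A ∈ P.powerset, W A X
        = ∑ X ∈ S, 2 * Real.exp (-((X.card.choose 2 : ℕ) * I α)) * 2 ^ P.card :=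
          Finset.sum_congr rfl fun X _ => hone X
      _ ≤ ∑ X ∈ S, 2 * (1 / (4 * (n : ℝ))) ^ X.card * 2 ^ P.card := by
          refine Finset.sum_le_sum fun X hX => ?_
          have := hx X hX
          gcongr
      _ = 2 * (∑ X ∈ S, (1 / (4 * (n : ℝ))) ^ X.card) * 2 ^ P.card := by
          rw [Finset.mul_sum, Finset.sum_mul]
      _ < 1 * 2 ^ P.card := by
          apply mul_lt_mul_of_pos_right _ (by positivity)
          linarith
      _ = 2 ^ P.card := one_mul _
  exact absurd hlow (not_le.2 hfin)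

end Pool.Agent.DR
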