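import Pool.Agent.Lib_helper71.DR.Iter
import Pool.Agent.Lib_helper71.DR.Upper

/-!
# The graph discrepancy Ramsey function: asymptotic form
-/

set_option autoImplicit false

namespace Pool.Agent.DR

open Finset Filter Topology

/-! ### The binomial coefficient -/

/-- the terms of `(k + (s - k))^s` -/
def T (s k j : ℕ) : ℕ := k ^ j * (s - k) ^ (s - j) * s.choose j

theorem T_up {s k j : ℕ} (hk : k ≤ s) (hj : j + 1 ≤ k) : T s k j ≤ T s k (j + 1) := by
  refine Nat.le_of_mul_le_mul_right ?_ (Nat.succ_pos j)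
  have h1 := Nat.choose_succ_right_eq s j
  have h2 : s - j = (s - (j + 1)) + 1 := by omega
  have h3 : (s - k) * (j + 1) ≤ k * (s - j) := by
    calc (s - k) * (j + 1) ≤ (s - j) * k := Nat.mul_le_mul (by omega) hj
      _ = k * (s - j) := Nat.mul_comm _ _
  calc T s k j * (j + 1) = k ^ j * (s - k) ^ (s - (j + 1)) * s.choose j * ((s - k) * (j + 1)) := by
        rw [T, h2, pow_succ]
        ring
    _ ≤ k ^ j * (s - k) ^ (s - (j + 1)) * s.choose j * (k * (s - j)) := Nat.mul_le_mul_left _ h3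
    _ = k ^ (j + 1) * (s - k) ^ (s - (j + 1)) * (s.choose j * (s - j)) := by ring
    _ = T s k (j + 1) * (j + 1) := by
        rw [← h1, T]
        ring

theorem T_down {s k j : ℕ} (hj : k ≤ j) (hjs : j + 1 ≤ s) : T s k (j + 1) ≤ T s k j := by
  refine Nat.le_of_mul_le_mul_right ?_ (Nat.succ_pos j)
  have h1 := Nat.choose_succ_right_eq s j
  have h2 : s - j = (s - (j + 1)) + 1 := by omega
  have h3 : k * (s - j) ≤ (s - k) * (j + 1) := by
    calc k * (s - j) ≤ (j + 1) * (s - k) := Nat.mul_le_mul (by omega) (by omega)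
      _ = (s - k) * (j + 1) := Nat.mul_comm _ _
  calc T s k (j + 1) * (j + 1) = k ^ (j + 1) * (s - k) ^ (s - (j + 1)) * (s.choose j * (s - j)) := by
        rw [← h1, T]
        ring
    _ = k ^ j * (s - k) ^ (s - (j + 1)) * s.choose j * (k * (s - j)) := by ring
    _ ≤ k ^ j * (s - k) ^ (s - (j + 1)) * s.choose j * ((s - k) * (j + 1)) :=
        Nat.mul_le_mul_left _ h3
    _ = T s k j * (j + 1) := by
        rw [T, h2, pow_succ]
        ring

theorem T_le {s k j : ℕ} (hk : k ≤ s) (hj : j ≤ s) : T s k j ≤ T s k k := by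
  have h1 : ∀ d j, j + d = k → T s k j ≤ T s k k := by
    intro d
    induction d with
    | zero =>
      intro j hj
      rw [← hj, Nat.add_zero]
    | succ d ih =>
      intro j hj
      exact (T_up hk (by omega)).trans (ih (j + 1) (by omega))
  have h2 : ∀ d, k + d ≤ s → T s k (k + d) ≤ T s k k := by
    intro d
    induction d with
    | zero =>
      intro _
      exact le_rfl
    | succ d ih =>
      intro hd
      exact (T_down (j := k + d) (by omega) (by omega)).trans (ih (by omega))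
  rcases le_total j k with h | h
  · exact h1 (k - j) j (by omega)
  · have := h2 (j - k) (by omega)
    rwa [Nat.add_sub_cancel' h] at this

theorem pow_le_choose {s k : ℕ} (hk : k ≤ s) :
    s ^ s ≤ (s + 1) * (k ^ k * (s - k) ^ (s - k) * s.choose k) := by
  have h1 := add_pow k (s - k) s
  rw [Nat.add_sub_cancel' hk] at h1
  rw [h1]
  calc ∑ m ∈ range (s + 1), k ^ m * (s - k) ^ (s - m) * s.choose m
      ≤ ∑ m ∈ range (s + 1), T s k k :=
        Finset.sum_le_sum fun m hm => T_le hk (Nat.lt_succ_iff.1 (Finset.mem_range.1 hm))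
    _ = (s + 1) * (k ^ k * (s - k) ^ (s - k) * s.choose k) := by
        rw [Finset.sum_const, Finset.card_range, smul_eq_mul, T]

theorem exp_mul_log (k : ℕ) {x : ℝ} (hx : (k : ℝ) ≠ 0 → 0 < x) :
    Real.exp (k * Real.log x) = x ^ k := by
  rcases Nat.eq_zero_or_pos k with rfl | h
  · simp
  · rw [Real.exp_nat_mul, Real.exp_log (hx (by exact_mod_cast h.ne'))]

theorem exp_I {s k : ℕ} (hs : 1 ≤ s) (hk : k ≤ s) :
    Real.exp (s * I ((k : ℝ) / s)) =
      2 ^ s * ((k : ℝ) ^ k * ((s - k : ℕ) : ℝ) ^ (s - k)) / (s : ℝ) ^ s := by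
  have hs0 : (0 : ℝ) < s := by exact_mod_cast hs
  have hcast : ((s - k : ℕ) : ℝ) = (s : ℝ) - k := Nat.cast_sub hk
  have e1 : (s : ℝ) * I ((k : ℝ) / s) = s * Real.log 2 + k * Real.log ((k : ℝ) / s) +
      ((s - k : ℕ) : ℝ) * Real.log (((s - k : ℕ) : ℝ) / s) := by
    have e2 : 1 - (k : ℝ) / s = ((s - k : ℕ) : ℝ) / s := by
      rw [hcast]
      field_simp
    rw [I, e2, hcast]
    field_simp
  rw [e1, Real.exp_add, Real.exp_add, exp_mul_log s (fun _ => by norm_num),
    exp_mul_log k (fun h => div_pos (lt_of_le_of_ne (Nat.cast_nonneg k) (Ne.symm h)) hs0),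
    exp_mul_log (s - k) (fun h => div_pos (lt_of_le_of_ne (Nat.cast_nonneg _) (Ne.symm h)) hs0),
    div_pow, div_pow]
  have e3 : (s : ℝ) ^ s = (s : ℝ) ^ k * (s : ℝ) ^ (s - k) := by
    rw [← pow_add, Nat.add_sub_cancel' hk]
  rw [e3]
  field_simp

theorem L_le {s : ℕ} {κ : ℕ → ℕ} (hs : 1 ≤ s) (hκ : ∀ j, κ j ≤ s) (j : ℕ) :
    L s κ j ≤ 16 * s * Real.exp (s * I ((κ j : ℝ) / s)) := by
  have hs0 : (1 : ℝ) ≤ s := by exact_mod_cast hs
  have hC : (0 : ℝ) < (s.choose (κ j) : ℝ) := by exact_mod_cast Nat.choose_pos (hκ j)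
  have h1 : (s : ℝ) ^ s ≤ (s + 1) * ((κ j : ℝ) ^ κ j * ((s - κ j : ℕ) : ℝ) ^ (s - κ j) *
      (s.choose (κ j) : ℝ)) := by
    exact_mod_cast pow_le_choose (hκ j)
  rw [L, exp_I hs (hκ j), div_le_iff₀ hC]
  set D : ℝ := (κ j : ℝ) ^ κ j * ((s - κ j : ℕ) : ℝ) ^ (s - κ j) with hD
  have hss : (0 : ℝ) < (s : ℝ) ^ s := by positivity
  have h2 : 16 * (s : ℝ) * (2 ^ s * D / (s : ℝ) ^ s) * (s.choose (κ j) : ℝ) =
      (16 * (s : ℝ) * 2 ^ s * (D * (s.choose (κ j) : ℝ))) / (s : ℝ) ^ s := by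
    field_simp
  rw [h2, le_div_iff₀ hss]
  have hD0 : 0 ≤ D * (s.choose (κ j) : ℝ) := by positivity
  calc (2 : ℝ) ^ (s + 3) * (s : ℝ) ^ s
      ≤ 2 ^ (s + 3) * ((s + 1) * (D * (s.choose (κ j) : ℝ))) :=
        mul_le_mul_of_nonneg_left h1 (by positivity)
    _ = 8 * ((s : ℝ) + 1) * 2 ^ s * (D * (s.choose (κ j) : ℝ)) := by ring
    _ ≤ 16 * (s : ℝ) * 2 ^ s * (D * (s.choose (κ j) : ℝ)) := by
        have h3 : 8 * ((s : ℝ) + 1) ≤ 16 * s := by linarith
        gcongr

/-- the thresholds -/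
noncomputable def kap (b : ℕ → ℝ) (s j : ℕ) : ℕ := ⌈b j * s⌉₊

theorem kap_le {b : ℕ → ℝ} (hb : ∀ j, b j ≤ 1) (s j : ℕ) : kap b s j ≤ s := by
  rw [kap, Nat.ceil_le]
  nlinarith [hb j, (Nat.cast_nonneg s : (0 : ℝ) ≤ s)]

theorem kap_ge (b : ℕ → ℝ) (s j : ℕ) : b j * s ≤ kap b s j := Nat.le_ceil _

theorem kap_tendsto {b : ℕ → ℝ} (hb0 : ∀ j, 0 ≤ b j) (j : ℕ) :
    Tendsto (fun s : ℕ => (kap b s j : ℝ) / s) atTop (𝓝 (b j)) := by
  have h := tendsto_nat_ceil_mul_div_atTop (hb0 j)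
  exact h.comp tendsto_natCast_atTop_atTop

/-- the size of the ground set -/
theorem size {b : ℕ → ℝ} (hb0 : ∀ j, 0 ≤ b j) (hb1 : ∀ j, b j ≤ 1) (K : ℕ) {η : ℝ} (hη : 0 < η) :
    ∀ᶠ s : ℕ in atTop, 16 * (s : ℝ) ^ 2 * ((∏ j ∈ range K, L s (kap b s) j) *
      ∏ j ∈ range K, L s (kap b s) j) ≤
        Real.exp (s * (2 * (∑ j ∈ range K, I (b j)) + η)) := by
  have ht1 : Tendsto (fun s : ℕ => (2 * K + 2 : ℝ) * ((Real.log 16 + Real.log s) / s) +
      2 * ∑ j ∈ range K, I ((kap b s j : ℝ) / s)) atTop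
      (𝓝 ((2 * K + 2 : ℝ) * 0 + 2 * ∑ j ∈ range K, I (b j))) := by
    refine Tendsto.add (Tendsto.const_mul _ ?_) (Tendsto.const_mul _ ?_)
    · have h1 : Tendsto (fun s : ℕ => Real.log 16 / (s : ℝ)) atTop (𝓝 0) :=
        tendsto_const_div_atTop_nhds_zero_nat _
      have h2 : Tendsto (fun s : ℕ => Real.log s / (s : ℝ)) atTop (𝓝 0) := by
        have := (Real.tendsto_pow_log_div_mul_add_atTop 1 0 1 one_ne_zero).comp
          (tendsto_natCast_atTop_atTop (R := ℝ))
        refine this.congr fun s => ?_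
        simp
      have h3 := h1.add h2
      rw [add_zero] at h3
      refine h3.congr fun s => ?_
      rw [add_div]
    · refine tendsto_finsetSum _ fun j _ => ?_
      exact (I_continuous.tendsto (b j)).comp (kap_tendsto hb0 j)
  rw [mul_zero, zero_add] at ht1
  have hev := ht1.eventually_lt_const (show 2 * ∑ j ∈ range K, I (b j) <
    2 * (∑ j ∈ range K, I (b j)) + η by linarith)
  filter_upwards [hev, eventually_ge_atTop 1] with s hs hs1
  have hs0 : (0 : ℝ) < s := by exact_mod_cast hs1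
  have hs1' : (1 : ℝ) ≤ s := by exact_mod_cast hs1
  have hκ : ∀ j, kap b s j ≤ s := kap_le hb1 s
  have hP : ∏ j ∈ range K, L s (kap b s) j ≤
      (16 * (s : ℝ)) ^ K * Real.exp (s * ∑ j ∈ range K, I ((kap b s j : ℝ) / s)) := by
    calc ∏ j ∈ range K, L s (kap b s) j
        ≤ ∏ j ∈ range K, (16 * (s : ℝ) * Real.exp (s * I ((kap b s j : ℝ) / s))) :=
          Finset.prod_le_prod (fun j _ => (zero_le_one.trans (one_le_L hκ j)))
            fun j _ => L_le hs1 hκ j
      _ = _ := by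
          rw [Finset.prod_mul_distrib, Finset.prod_const, Finset.card_range, ← Real.exp_sum,
            Finset.mul_sum]
  have hP0 : 0 ≤ ∏ j ∈ range K, L s (kap b s) j := zero_le_one.trans (one_le_prod_L hκ K)
  set Sg := ∑ j ∈ range K, I ((kap b s j : ℝ) / s) with hSg
  have h16 : (0 : ℝ) < 16 * s := by positivity
  calc 16 * (s : ℝ) ^ 2 * ((∏ j ∈ range K, L s (kap b s) j) * ∏ j ∈ range K, L s (kap b s) j)
      ≤ (16 * (s : ℝ)) ^ 2 * (((16 * (s : ℝ)) ^ K * Real.exp (s * Sg)) *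
          ((16 * (s : ℝ)) ^ K * Real.exp (s * Sg))) := by
        have h1 : 16 * (s : ℝ) ^ 2 ≤ (16 * (s : ℝ)) ^ 2 := by nlinarith [sq_nonneg (s : ℝ)]
        gcongr
    _ = (16 * (s : ℝ)) ^ (2 * K + 2) * Real.exp (2 * (s * Sg)) := by
        rw [two_mul (s * Sg), Real.exp_add]
        ring
    _ = Real.exp ((2 * K + 2 : ℝ) * (Real.log 16 + Real.log s) + 2 * (s * Sg)) := by
        rw [Real.exp_add, ← Real.log_mul (by norm_num) hs0.ne']
        congr 1
        have : ((2 * K + 2 : ℕ) : ℝ) = 2 * K + 2 := by push_cast; ring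
        rw [← this, Real.exp_nat_mul, Real.exp_log h16]
    _ ≤ Real.exp (s * (2 * (∑ j ∈ range K, I (b j)) + η)) := by
        apply Real.exp_le_exp.2
        have h2 : (2 * K + 2 : ℝ) * (Real.log 16 + Real.log s) + 2 * (s * Sg) =
            s * ((2 * K + 2 : ℝ) * ((Real.log 16 + Real.log s) / s) + 2 * Sg) := by
          field_simp
        rw [h2]
        exact mul_le_mul_of_nonneg_left hs.le hs0.le

/-- **The lower bound with a general profile.** -/
theorem lower {α : ℝ} (hα : α ≤ 1) {K : ℕ} (hK : 1 ≤ K) {b : ℕ → ℝ} (hb0 : ∀ j, 0 ≤ b j)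
    (hb1 : ∀ j, b j ≤ 1) (hsum : (1 - α) * K ^ 2 / 2 ≤ ∑ j ∈ range K, j * b j) {c : ℝ}
    (hc : c * (2 * ∑ j ∈ range K, I (b j)) < K) :
    ∀ᶠ n : ℕ in atTop, c * Real.log n ≤ F n α := by
  have hK0 : (0 : ℝ) < K := by exact_mod_cast hK
  rcases le_or_gt c 0 with hc0 | hc0
  · filter_upwards [eventually_ge_atTop 1] with n hn
    have h1 : 0 ≤ Real.log n := Real.log_natCast_nonneg n
    have h2 : (0 : ℝ) ≤ F n α := Nat.cast_nonneg _
    nlinarith
  set β := 2 * ∑ j ∈ range K, I (b j) with hβ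
  obtain ⟨η, hη, hη1⟩ : ∃ η : ℝ, 0 < η ∧ c / K * (β + η) < 1 := by
    refine ⟨(K / c - β) / 2, ?_, ?_⟩
    · have : β < K / c := by
        rw [lt_div_iff₀ hc0]
        linarith
      linarith
    · have h1 : β < K / c := by
        rw [lt_div_iff₀ hc0]
        linarith
      have h2 : c / K * (K / c) = 1 := by field_simp
      have h3 : 0 < c / K := by positivity
      calc c / K * (β + (K / c - β) / 2) < c / K * (K / c) :=
            mul_lt_mul_of_pos_left (by linarith) h3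
        _ = 1 := h2
  have hlog : Tendsto (fun n : ℕ => Real.log (n : ℝ)) atTop atTop :=
    Real.tendsto_log_atTop.comp tendsto_natCast_atTop_atTop
  have hs_tend : Tendsto (fun n : ℕ => ⌈c / K * Real.log (n : ℝ)⌉₊) atTop atTop :=
    tendsto_nat_ceil_atTop.comp (hlog.const_mul_atTop (by positivity))
  have hsize := hs_tend.eventually (size hb0 hb1 K hη)
  have hs1 := hs_tend.eventually (eventually_ge_atTop 1)
  have hbig := hlog.eventually (eventually_ge_atTop ((β + η) / (1 - c / K * (β + η))))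
  have hβ0 : 0 ≤ β + η := by
    have : 0 ≤ ∑ j ∈ range K, I (b j) := Finset.sum_nonneg fun j _ => I_nonneg _
    linarith
  filter_upwards [hsize, hs1, hbig, eventually_ge_atTop 1] with n h1 h2 h3 h4
  have hn0 : (0 : ℝ) < n := by exact_mod_cast h4
  have hlogn : 0 ≤ Real.log n := Real.log_natCast_nonneg n
  set s := ⌈c / K * Real.log (n : ℝ)⌉₊ with hs_def
  have hsle : (s : ℝ) < c / K * Real.log n + 1 := Nat.ceil_lt_add_one (by positivity)
  have hsge : c / K * Real.log n ≤ s := Nat.le_ceil _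
  have hs0 : (1 : ℝ) ≤ s := by exact_mod_cast h2
  have hnle : Real.exp (s * (β + η)) ≤ n := by
    rw [← Real.exp_log hn0]
    apply Real.exp_le_exp.2
    rw [div_le_iff₀ (by linarith)] at h3
    calc (s : ℝ) * (β + η) ≤ (c / K * Real.log n + 1) * (β + η) :=
          mul_le_mul_of_nonneg_right hsle.le hβ0
      _ = c / K * (β + η) * Real.log n + (β + η) := by ring
      _ ≤ Real.log n := by linarith
  have hfin := lower_finite (n := n) (K := K) (α := α) h2 (kap_le hb1 s) (h1.trans hnle) (by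
    have e1 : (((s * K).choose 2 : ℕ) : ℝ) = (s * K : ℝ) * ((s * K : ℝ) - 1) / 2 := by
      rw [Nat.cast_choose_two]
      push_cast
      ring
    have e2 : ((s * ∑ j ∈ range K, j * kap b s j : ℕ) : ℝ) =
        s * ∑ j ∈ range K, (j : ℝ) * kap b s j := by
      push_cast
      ring
    rw [e1, e2]
    have e3 : (s : ℝ) * ((1 - α) * K ^ 2 / 2) ≤ ∑ j ∈ range K, (j : ℝ) * kap b s j := by
      calc (s : ℝ) * ((1 - α) * K ^ 2 / 2) ≤ s * ∑ j ∈ range K, (j : ℝ) * b j :=
            mul_le_mul_of_nonneg_left hsum (by linarith)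
        _ = ∑ j ∈ range K, (j : ℝ) * (b j * s) := by
            rw [Finset.mul_sum]
            refine Finset.sum_congr rfl fun j _ => by ring
        _ ≤ _ := Finset.sum_le_sum fun j _ =>
            mul_le_mul_of_nonneg_left (kap_ge b s j) (Nat.cast_nonneg j)
    have e4 := mul_le_mul_of_nonneg_left e3 (by linarith : (0 : ℝ) ≤ s)
    refine le_trans ?_ e4
    have e5 : 0 ≤ (1 - α) * (s * K : ℝ) := by
      have : 0 ≤ 1 - α := by linarith
      positivity
    nlinarith)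
  have hfin' : ((s * K : ℕ) : ℝ) ≤ F n α := by exact_mod_cast hfin.le
  push_cast at hfin'
  calc c * Real.log n = c / K * Real.log n * K := by field_simp
    _ ≤ s * K := mul_le_mul_of_nonneg_right hsge hK0.le
    _ ≤ F n α := hfin'

/-- **The upper bound.** -/
theorem upper_log {α : ℝ} (h0 : 0 < α) (h1 : α < 1 / 2) {c : ℝ} (hc : 2 / I α < c) :
    ∀ᶠ n : ℕ in atTop, (F n α : ℝ) ≤ c * Real.log n := by
  have hI : 0 < I α := I_pos h1.ne
  have hlog : Tendsto (fun n : ℕ => Real.log (n : ℝ)) atTop atTop :=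
    Real.tendsto_log_atTop.comp tendsto_natCast_atTop_atTop
  have hbig := hlog.eventually (eventually_ge_atTop ((2 + 2 / I α * Real.log 4) / (c - 2 / I α)))
  filter_upwards [hbig, eventually_ge_atTop 1] with n h2 h3
  have hlogn : 0 ≤ Real.log n := Real.log_natCast_nonneg n
  have hlog4 : 0 ≤ Real.log 4 := Real.log_nonneg (by norm_num)
  set y : ℝ := 1 + 2 / I α * (Real.log n + Real.log 4) with hy
  have hy1 : 1 ≤ y := by
    have : 0 ≤ 2 / I α * (Real.log n + Real.log 4) := by positivity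
    linarith
  have hm1 : 1 ≤ ⌈y⌉₊ := Nat.one_le_ceil_iff.2 (by linarith)
  have hge : y ≤ ⌈y⌉₊ := Nat.le_ceil y
  have hlt : (⌈y⌉₊ : ℝ) < y + 1 := Nat.ceil_lt_add_one (by linarith)
  have hup := upper (n := n) (m := ⌈y⌉₊) h0 h1 hm1 h3 (by
    have e1 : 2 / I α * (Real.log n + Real.log 4) ≤ (⌈y⌉₊ : ℝ) - 1 := by linarith
    have e2 := mul_le_mul_of_nonneg_right e1 hI.le
    have e3 : 2 / I α * (Real.log n + Real.log 4) * I α = 2 * (Real.log n + Real.log 4) := by
      field_simp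
    rw [e3] at e2
    linarith)
  have hup' : (F n α : ℝ) ≤ ⌈y⌉₊ := by exact_mod_cast hup
  rw [div_le_iff₀ (by linarith)] at h2
  have : y + 1 ≤ c * Real.log n := by
    rw [hy]
    nlinarith
  linarith

end Pool.Agent.DR
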