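import Pool.Agent.Lib_helper71.DR.Defs

/-!
# The graph discrepancy Ramsey function: one block
-/

set_option autoImplicit false

namespace Pool.Agent.DR

open Finset

variable {ι : Type*} [DecidableEq ι]

/-- the pair `x y` belongs to the class `c` -/
def R (A : Finset (Finset ι)) (c : Bool) (x y : ι) : Prop :=
  (({x, y} : Finset ι) ∈ A ↔ c = true)

instance (A : Finset (Finset ι)) (c : Bool) (x y : ι) : Decidable (R A c x y) := by
  unfold R
  infer_instance

theorem R_comm (A : Finset (Finset ι)) (c : Bool) (x y : ι) : R A c x y ↔ R A c y x := by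
  rw [R, R, Finset.pair_comm]

theorem R_false (A : Finset (Finset ι)) (x y : ι) : R A false x y ↔ ¬ R A true x y := by
  simp [R]

/-- numerical comparison -/
theorem num {h s k : ℕ} (hk : k ≤ s) (hs : 1 ≤ s) (hh : 2 * s ^ 2 ≤ h) :
    (2 * h).choose s * s.choose k ≤ h.choose k * (h - 1).choose (s - k) * 2 ^ (s + 1) := by
  have hsh : s ≤ h := by nlinarith
  have hpos : 0 < k.factorial * (s - k).factorial :=
    Nat.mul_pos (Nat.factorial_pos _) (Nat.factorial_pos _)
  refine Nat.le_of_mul_le_mul_right ?_ hpos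
  have e1 : (2 * h).choose s * s.choose k * (k.factorial * (s - k).factorial) =
      (2 * h).descFactorial s := by
    rw [Nat.descFactorial_eq_factorial_mul_choose, ← Nat.choose_mul_factorial_mul_factorial hk]
    ring
  have e2 : h.choose k * (h - 1).choose (s - k) * 2 ^ (s + 1) *
      (k.factorial * (s - k).factorial) =
      h.descFactorial k * (h - 1).descFactorial (s - k) * 2 ^ (s + 1) := by
    rw [Nat.descFactorial_eq_factorial_mul_choose, Nat.descFactorial_eq_factorial_mul_choose]
    ring
  rw [e1, e2]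
  have e3 : (2 * h).descFactorial s ≤ (2 * h) ^ s := Nat.descFactorial_le_pow _ _
  refine e3.trans ?_
  have e4 : (h - s) ^ k ≤ h.descFactorial k :=
    (Nat.pow_le_pow_left (by omega) k).trans (Nat.pow_sub_le_descFactorial h k)
  have e5 : (h - s) ^ (s - k) ≤ (h - 1).descFactorial (s - k) :=
    (Nat.pow_le_pow_left (by omega) (s - k)).trans (Nat.pow_sub_le_descFactorial (h - 1) (s - k))
  have e6 : (h - s) ^ s ≤ h.descFactorial k * (h - 1).descFactorial (s - k) := by
    calc (h - s) ^ s = (h - s) ^ k * (h - s) ^ (s - k) := by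
          rw [← pow_add, Nat.add_sub_cancel' hk]
      _ ≤ _ := Nat.mul_le_mul e4 e5
  have e7 : h ^ s ≤ 2 * (h - s) ^ s := by
    have hh0 : (0 : ℝ) < h := by
      have : 0 < h := by omega
      exact_mod_cast this
    have hcast : ((h - s : ℕ) : ℝ) = (h : ℝ) - s := Nat.cast_sub hsh
    have hh' : (2 : ℝ) * s ^ 2 ≤ h := by exact_mod_cast hh
    have hs' : (1 : ℝ) ≤ s := by exact_mod_cast hs
    have b1 : -2 ≤ -((s : ℝ) / h) := by
      have : (s : ℝ) / h ≤ 1 := by
        rw [div_le_one hh0]
        exact_mod_cast hsh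
      linarith
    have b2 := one_add_mul_le_pow b1 s
    have b3 : (1 : ℝ) / 2 ≤ 1 + s * -((s : ℝ) / h) := by
      have : (s : ℝ) * ((s : ℝ) / h) ≤ 1 / 2 := by
        rw [← mul_div_assoc, div_le_iff₀ hh0]
        nlinarith
      linarith
    have b4 : ((h : ℝ) - s) ^ s = (h : ℝ) ^ s * (1 + -((s : ℝ) / h)) ^ s := by
      rw [← mul_pow]
      congr 1
      field_simp
      ring
    have b5 : (h : ℝ) ^ s ≤ 2 * ((h : ℝ) - s) ^ s := by
      rw [b4]
      have : (0 : ℝ) < (h : ℝ) ^ s := by positivity
      nlinarith [b2.trans' b3]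
    rw [← hcast] at b5
    exact_mod_cast b5
  calc (2 * h) ^ s = 2 ^ s * h ^ s := mul_pow _ _ _
    _ ≤ 2 ^ s * (2 * (h - s) ^ s) := Nat.mul_le_mul_left _ e7
    _ ≤ 2 ^ s * (2 * (h.descFactorial k * (h - 1).descFactorial (s - k))) := by gcongr
    _ = _ := by ring

/-- many `s`-sets meet the neighbourhood of `x` in at least `k` points -/
theorem many (A : Finset (Finset ι)) (c : Bool) (V : Finset ι) {h s k : ℕ} (hV : V.card = 2 * h)
    (hk : k ≤ s) {x : ι} (hx : x ∈ V)
    (hN : h ≤ ((V.erase x).filter fun y => R A c x y).card) :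
    h.choose k * (h - 1).choose (s - k) ≤
      ((V.powersetCard s).filter fun Y => x ∉ Y ∧ k ≤ (Y.filter fun y => R A c x y).card).card := by
  obtain ⟨N, hN1, hN2⟩ := Finset.exists_subset_card_eq hN
  set Q := (V.erase x) \ N with hQ
  have hNV : N ⊆ V.erase x := hN1.trans (Finset.filter_subset _ _)
  have hQc : Q.card = h - 1 := by
    rw [hQ, Finset.card_sdiff_of_subset hNV, Finset.card_erase_of_mem hx, hV, hN2]
    omega
  have hdisj : Disjoint N Q := Finset.disjoint_sdiff
  have e1 : h.choose k * (h - 1).choose (s - k) =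
      ((N.powersetCard k) ×ˢ (Q.powersetCard (s - k))).card := by
    rw [Finset.card_product, Finset.card_powersetCard, Finset.card_powersetCard, hN2, hQc]
  rw [e1]
  refine Finset.card_le_card_of_injOn (fun p => p.1 ∪ p.2) ?_ ?_
  · rintro ⟨S, T⟩ hp
    simp only [Finset.coe_product, Set.mem_prod, Finset.mem_coe, Finset.mem_powersetCard] at hp
    obtain ⟨⟨hS1, hS2⟩, hT1, hT2⟩ := hp
    have hST : Disjoint S T := Finset.disjoint_of_subset_left hS1
      (Finset.disjoint_of_subset_right hT1 hdisj)
    have hSV : S ⊆ V.erase x := hS1.trans hNV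
    have hTV : T ⊆ V.erase x := hT1.trans Finset.sdiff_subset
    simp only [Finset.coe_filter, Set.mem_ofPred_eq, Finset.mem_powersetCard]
    refine ⟨⟨?_, ?_⟩, ?_, ?_⟩
    · exact (Finset.union_subset hSV hTV).trans (Finset.erase_subset _ _)
    · rw [Finset.card_union_of_disjoint hST, hS2, hT2]
      omega
    · intro hxm
      exact Finset.notMem_erase x V (Finset.union_subset hSV hTV hxm)
    · rw [← hS2]
      refine Finset.card_le_card fun y hy => ?_
      exact Finset.mem_filter.2 ⟨Finset.mem_union_left _ hy, (Finset.mem_filter.1 (hN1 (hS1 hy))).2⟩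
  · rintro ⟨S, T⟩ hp ⟨S', T'⟩ hp' heq
    simp only [Finset.coe_product, Set.mem_prod, Finset.mem_coe, Finset.mem_powersetCard] at hp hp'
    simp only at heq
    have hin : ∀ (S T : Finset ι), S ⊆ N → T ⊆ Q → (S ∪ T) ∩ N = S ∧ (S ∪ T) ∩ Q = T := by
      intro S T hS hT
      constructor
      · ext y
        simp only [Finset.mem_inter, Finset.mem_union]
        constructor
        · rintro ⟨h1 | h1, h2⟩
          · exact h1
          · exact absurd (hT h1) (Finset.disjoint_left.1 hdisj h2)
        · intro h1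
          exact ⟨Or.inl h1, hS h1⟩
      · ext y
        simp only [Finset.mem_inter, Finset.mem_union]
        constructor
        · rintro ⟨h1 | h1, h2⟩
          · exact absurd h2 (Finset.disjoint_left.1 hdisj (hS h1))
          · exact h1
        · intro h1
          exact ⟨Or.inr h1, hT h1⟩
    have a1 := hin S T hp.1.1 hp.2.1
    have a2 := hin S' T' hp'.1.1 hp'.2.1
    rw [heq] at a1
    rw [Prod.mk.injEq]
    exact ⟨a1.1.symm.trans a2.1, a1.2.symm.trans a2.2⟩

/-- one block, even order -/
theorem block_even (A : Finset (Finset ι)) (V : Finset ι) {h s : ℕ} (hV : V.card = 2 * h)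
    (hs : 1 ≤ s) (hh : 2 * s ^ 2 ≤ h) (k : Bool → ℕ) (hk : ∀ c, k c ≤ s) :
    ∃ c : Bool, ∃ Y ⊆ V, Y.card = s ∧ ∃ V' ⊆ V \ Y,
      (∀ x ∈ V', k c ≤ (Y.filter fun y => R A c x y).card) ∧
      V.card * s.choose (k c) ≤ V'.card * 2 ^ (s + 2) := by
  have hsh : s ≤ h := by nlinarith
  -- the majority colour of `x`
  set W : Bool → Finset ι := fun c => V.filter fun x =>
    h ≤ ((V.erase x).filter fun y => R A c x y).card with hW
  have hcov : V ⊆ W true ∪ W false := by
    intro x hx
    have e1 := Finset.card_filter_add_card_filter_not (s := V.erase x) (fun y => R A true x y)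
    have e2 : (V.erase x).filter (fun y => ¬ R A true x y) =
        (V.erase x).filter fun y => R A false x y :=
      Finset.filter_congr fun y _ => (R_false A x y).symm
    rw [e2, Finset.card_erase_of_mem hx, hV] at e1
    rw [Finset.mem_union]
    by_cases h1 : h ≤ ((V.erase x).filter fun y => R A true x y).card
    · exact Or.inl (Finset.mem_filter.2 ⟨hx, h1⟩)
    · refine Or.inr (Finset.mem_filter.2 ⟨hx, ?_⟩)
      omega
  have hex : ∃ c, h ≤ (W c).card := by
    by_contra hcon
    push Not at hcon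
    have e1 := Finset.card_le_card hcov
    have e2 := Finset.card_union_le (W true) (W false)
    have e3 := hcon true
    have e4 := hcon false
    omega
  obtain ⟨c, hc⟩ := hex
  set B := h.choose (k c) * (h - 1).choose (s - k c) with hB
  set r : ι → Finset ι → Prop := fun x Y => x ∉ Y ∧ k c ≤ (Y.filter fun y => R A c x y).card
    with hr
  have hdc := Finset.sum_card_bipartiteAbove_eq_sum_card_bipartiteBelow (s := W c)
    (t := V.powersetCard s) r
  have hsum : (W c).card * B ≤ ∑ Y ∈ V.powersetCard s, ((W c).filter fun x => r x Y).card := by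
    have e1 : ∑ x ∈ W c, B ≤ ∑ x ∈ W c, ((V.powersetCard s).bipartiteAbove r x).card := by
      refine Finset.sum_le_sum fun x hx => ?_
      obtain ⟨hx1, hx2⟩ := Finset.mem_filter.1 hx
      exact many A c V hV (hk c) hx1 hx2
    rw [hdc, Finset.sum_const, smul_eq_mul] at e1
    exact e1
  have hne : (V.powersetCard s).Nonempty := by
    rw [Finset.powersetCard_nonempty, hV]
    omega
  have hcard : (V.powersetCard s).card = (2 * h).choose s := by
    rw [Finset.card_powersetCard, hV]
  obtain ⟨Y, hY, hYle⟩ : ∃ Y ∈ V.powersetCard s,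
      (W c).card * B ≤ (2 * h).choose s * ((W c).filter fun x => r x Y).card := by
    refine Finset.exists_le_of_sum_le hne ?_
    rw [Finset.sum_const, hcard, smul_eq_mul, ← Finset.mul_sum]
    exact Nat.mul_le_mul_left _ hsum
  obtain ⟨hYV, hYs⟩ := Finset.mem_powersetCard.1 hY
  refine ⟨c, Y, hYV, hYs, (W c).filter fun x => r x Y, ?_, ?_, ?_⟩
  · intro x hx
    obtain ⟨hx1, hx2⟩ := Finset.mem_filter.1 hx
    exact Finset.mem_sdiff.2 ⟨(Finset.mem_filter.1 hx1).1, hx2.1⟩
  · intro x hx
    exact (Finset.mem_filter.1 hx).2.2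
  · have hpos : 0 < (2 * h).choose s := Nat.choose_pos (by omega)
    have hnum := num (hk c) hs hh
    rw [← hB] at hnum
    have e1 : (W c).card * s.choose (k c) ≤ ((W c).filter fun x => r x Y).card * 2 ^ (s + 1) := by
      refine Nat.le_of_mul_le_mul_left ?_ hpos
      calc (2 * h).choose s * ((W c).card * s.choose (k c))
          = (W c).card * ((2 * h).choose s * s.choose (k c)) := by ring
        _ ≤ (W c).card * (B * 2 ^ (s + 1)) := Nat.mul_le_mul_left _ hnum
        _ = ((W c).card * B) * 2 ^ (s + 1) := by ring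
        _ ≤ ((2 * h).choose s * ((W c).filter fun x => r x Y).card) * 2 ^ (s + 1) :=
            Nat.mul_le_mul_right _ hYle
        _ = _ := by ring
    calc V.card * s.choose (k c) ≤ (2 * (W c).card) * s.choose (k c) := by
          rw [hV]
          gcongr
      _ = 2 * ((W c).card * s.choose (k c)) := by ring
      _ ≤ 2 * (((W c).filter fun x => r x Y).card * 2 ^ (s + 1)) := by gcongr
      _ = _ := by ring

/-- one block -/
theorem block (A : Finset (Finset ι)) (V : Finset ι) {s : ℕ} (hs : 1 ≤ s)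
    (hV : 4 * s ^ 2 + 1 ≤ V.card) (k : Bool → ℕ) (hk : ∀ c, k c ≤ s) :
    ∃ c : Bool, ∃ Y ⊆ V, Y.card = s ∧ ∃ V' ⊆ V \ Y,
      (∀ x ∈ V', k c ≤ (Y.filter fun y => R A c x y).card) ∧
      V.card * s.choose (k c) ≤ V'.card * 2 ^ (s + 3) := by
  have hle : 2 * (V.card / 2) ≤ V.card := Nat.mul_div_le _ _
  obtain ⟨U, hUV, hU⟩ := Finset.exists_subset_card_eq hle
  have hh : 2 * s ^ 2 ≤ V.card / 2 := by omega
  obtain ⟨c, Y, hYU, hYs, V', hV', hgood, hcard⟩ := block_even A U hU hs hh k hk
  refine ⟨c, Y, hYU.trans hUV, hYs, V', ?_, hgood, ?_⟩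
  · exact hV'.trans (Finset.sdiff_subset_sdiff hUV le_rfl)
  · have h1 : V.card ≤ 2 * U.card := by
      have : 1 ≤ s ^ 2 := Nat.one_le_pow _ _ hs
      omega
    calc V.card * s.choose (k c) ≤ (2 * U.card) * s.choose (k c) := by gcongr
      _ = 2 * (U.card * s.choose (k c)) := by ring
      _ ≤ 2 * (V'.card * 2 ^ (s + 2)) := by gcongr
      _ = _ := by ring

end Pool.Agent.DR
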