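import Pool.Agent.Lib_helper71.DR.Asym

/-!
# The graph discrepancy Ramsey function: consequences
-/

set_option autoImplicit false

namespace Pool.Agent.DR

open Finset Filter Topology

theorem sum_id (K : ℕ) : ∑ j ∈ range K, (j : ℝ) = K * (K - 1) / 2 := by
  induction K with
  | zero => simp
  | succ K ih =>
    rw [Finset.sum_range_succ, ih]
    push_cast
    ring

theorem sum_sq (K : ℕ) : ∑ j ∈ range K, (j : ℝ) ^ 2 = (K - 1) * K * (2 * K - 1) / 6 := by
  induction K with
  | zero => simp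
  | succ K ih =>
    rw [Finset.sum_range_succ, ih]
    push_cast
    ring

/-! ### The constant is never `1 / (2 I(α))` -/

theorem I_hasDerivAt {a : ℝ} (h0 : a ≠ 0) (h1 : a ≠ 1) :
    HasDerivAt I (Real.log a - Real.log (1 - a)) a := by
  have h := (Real.hasDerivAt_binEntropy h0 h1).const_sub (Real.log 2)
  have e : I = fun a => Real.log 2 - Real.binEntropy a := funext I_eq
  rw [e]
  exact h.congr_deriv (by ring)

/-- two steps -/
theorem lower_two {α : ℝ} (hα : α ≤ 1) {a₁ a₂ : ℝ} (h1 : 0 ≤ a₁) (h1' : a₁ ≤ 1) (h2 : 0 ≤ a₂)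
    (h2' : a₂ ≤ 1) (h : 4 * (1 - α) < a₁ + 3 * a₂) {c : ℝ} (hc : c * (I a₁ + I a₂) < 1) :
    ∀ᶠ n : ℕ in atTop, c * Real.log n ≤ F n α := by
  obtain ⟨L, hL⟩ := exists_nat_ge ((a₁ + a₂) / (a₁ + 3 * a₂ - 4 * (1 - α)))
  rw [div_le_iff₀ (by linarith)] at hL
  set M := L + 1 with hM
  have hM1 : (1 : ℝ) ≤ M := by
    rw [hM]
    push_cast
    linarith [(Nat.cast_nonneg L : (0 : ℝ) ≤ L)]
  have hML : (a₁ + a₂) ≤ M * (a₁ + 3 * a₂ - 4 * (1 - α)) := by
    rw [hM]
    push_cast
    linarith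
  set b : ℕ → ℝ := fun j => if j < M then a₁ else a₂ with hb
  have hrange : ∀ f : ℕ → ℝ, ∑ j ∈ range (2 * M), f j = ∑ j ∈ range M, f j +
      ∑ j ∈ range M, f (M + j) := by
    intro f
    rw [two_mul, Finset.sum_range_add]
  refine lower hα (K := 2 * M) (b := b) (by omega) ?_ ?_ ?_ ?_
  · intro j
    simp only [hb]
    split_ifs <;> assumption
  · intro j
    simp only [hb]
    split_ifs <;> assumption
  · rw [hrange]
    have e1 : ∑ j ∈ range M, (j : ℝ) * b j = a₁ * (M * (M - 1) / 2) := by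
      rw [← sum_id, Finset.mul_sum]
      refine Finset.sum_congr rfl fun j hj => ?_
      simp only [hb, if_pos (Finset.mem_range.1 hj)]
      ring
    have e2 : ∑ j ∈ range M, ((M + j : ℕ) : ℝ) * b (M + j) = a₂ * (M * M + M * (M - 1) / 2) := by
      have : ∑ j ∈ range M, ((M + j : ℕ) : ℝ) * b (M + j) =
          ∑ j ∈ range M, (a₂ * M + a₂ * j) := by
        refine Finset.sum_congr rfl fun j hj => ?_
        simp only [hb, if_neg (not_lt.2 (Nat.le_add_right M j))]
        push_cast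
        ring
      have e3 : ∑ j ∈ range M, a₂ * (j : ℝ) = a₂ * (M * (M - 1) / 2) := by
        rw [← sum_id, Finset.mul_sum]
      rw [this, Finset.sum_add_distrib, e3, Finset.sum_const, Finset.card_range, nsmul_eq_mul]
      ring
    rw [e1, e2]
    push_cast
    have key : a₁ * (M * (M - 1) / 2) + a₂ * (M * M + M * (M - 1) / 2) -
        (1 - α) * (2 * (M : ℝ)) ^ 2 / 2 =
        M / 2 * (M * (a₁ + 3 * a₂ - 4 * (1 - α)) - (a₁ + a₂)) := by ring
    have hk2 : 0 ≤ (M : ℝ) / 2 * (M * (a₁ + 3 * a₂ - 4 * (1 - α)) - (a₁ + a₂)) :=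
      mul_nonneg (by linarith) (by linarith)
    linarith
  · rw [hrange]
    have e1 : ∑ j ∈ range M, I (b j) = M * I a₁ := by
      have : ∑ j ∈ range M, I (b j) = ∑ j ∈ range M, I a₁ := by
        refine Finset.sum_congr rfl fun j hj => ?_
        simp only [hb, if_pos (Finset.mem_range.1 hj)]
      rw [this, Finset.sum_const, Finset.card_range, nsmul_eq_mul]
    have e2 : ∑ j ∈ range M, I (b (M + j)) = M * I a₂ := by
      have : ∑ j ∈ range M, I (b (M + j)) = ∑ j ∈ range M, I a₂ := by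
        refine Finset.sum_congr rfl fun j hj => ?_
        simp only [hb, if_neg (not_lt.2 (Nat.le_add_right M j))]
      rw [this, Finset.sum_const, Finset.card_range, nsmul_eq_mul]
    rw [e1, e2]
    push_cast
    have hMpos : (0 : ℝ) < M := by linarith
    have hk := mul_lt_mul_of_pos_right hc (by linarith : (0 : ℝ) < 2 * M)
    linarith

theorem lower_strict {α : ℝ} (h0 : 0 < α) (h1 : α < 1 / 2) :
    ∃ c : ℝ, 1 / (2 * I α) < c ∧ ∀ᶠ n : ℕ in atTop, c * Real.log n ≤ F n α := by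
  set a : ℝ := 1 - α with ha
  have ha0 : 1 / 2 < a := by rw [ha]; linarith
  have ha1 : a < 1 := by rw [ha]; linarith
  have hIa : I a = I α := I_symm α
  have hI : 0 < I α := I_pos h1.ne
  -- the function of the step
  set g : ℝ → ℝ := fun τ => I (a - 2 * τ) + I (a + τ) with hg
  have hd : HasDerivAt g (-(Real.log a - Real.log (1 - a))) 0 := by
    have hd0 := I_hasDerivAt (a := a) (by linarith) (by linarith)
    have d1 : HasDerivAt (fun τ : ℝ => a - 2 * τ) (-2) 0 := by
      have := ((hasDerivAt_id (0 : ℝ)).const_mul 2).const_sub a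
      simpa using this
    have d2 : HasDerivAt (fun τ : ℝ => a + τ) 1 0 := by
      have := (hasDerivAt_id (0 : ℝ)).const_add a
      simpa using this
    have c1 : HasDerivAt (fun τ : ℝ => I (a - 2 * τ))
        ((Real.log a - Real.log (1 - a)) * (-2)) 0 :=
      HasDerivAt.comp (h₂ := I) (0 : ℝ) (by simpa using hd0) d1
    have c2 : HasDerivAt (fun τ : ℝ => I (a + τ)) ((Real.log a - Real.log (1 - a)) * 1) 0 :=
      HasDerivAt.comp (h₂ := I) (0 : ℝ) (by simpa using hd0) d2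
    have c3 := c1.add c2
    refine c3.congr_deriv ?_
    ring
  have hneg : -(Real.log a - Real.log (1 - a)) < 0 := by
    have : Real.log (1 - a) < Real.log a := Real.log_lt_log (by linarith) (by linarith)
    linarith
  have hlt : ∀ᶠ τ in 𝓝[>] (0 : ℝ), g τ < g 0 := by
    have h2 := hd.hasDerivWithinAt (s := Set.Ioi 0)
    have h3 := (hasDerivWithinAt_iff_tendsto_slope' (by simp : (0 : ℝ) ∉ Set.Ioi (0 : ℝ))).1 h2
    have h4 := h3.eventually_lt_const hneg
    filter_upwards [h4, self_mem_nhdsWithin] with τ h5 h6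
    rw [slope_def_field] at h5
    have h7 : 0 < τ := h6
    rw [sub_zero, div_lt_iff₀ h7, zero_mul] at h5
    linarith
  have hsmall : ∀ᶠ τ in 𝓝[>] (0 : ℝ), τ < (1 - a) / 2 :=
    (eventually_lt_nhds (by linarith : (0 : ℝ) < (1 - a) / 2)).filter_mono nhdsWithin_le_nhds
  obtain ⟨τ, ⟨h5, h6⟩, h7⟩ := ((hlt.and hsmall).and self_mem_nhdsWithin).exists
  have h7' : 0 < τ := h7
  have hg0 : g 0 = 2 * I α := by
    simp only [hg, mul_zero, sub_zero, add_zero, hIa]
    ring
  rw [hg0] at h5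
  have hgpos : 0 < g τ := by
    have e1 : 0 ≤ I (a - 2 * τ) := I_nonneg _
    have e2 : 0 < I (a + τ) := I_pos (by linarith)
    simp only [hg]
    linarith
  refine ⟨(1 / (2 * I α) + 1 / g τ) / 2, ?_, ?_⟩
  · have : 1 / (2 * I α) < 1 / g τ := one_div_lt_one_div_of_lt hgpos h5
    linarith
  · refine lower_two (α := α) (by linarith) (a₁ := a - 2 * τ) (a₂ := a + τ) (by linarith)
      (by linarith) (by linarith) (by linarith) ?_ ?_
    · rw [ha]
      linarith
    · have e1 : 1 / (2 * I α) < 1 / g τ := one_div_lt_one_div_of_lt hgpos h5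
      have e2 : (1 / (2 * I α) + 1 / g τ) / 2 < 1 / g τ := by linarith
      calc (1 / (2 * I α) + 1 / g τ) / 2 * g τ < 1 / g τ * g τ :=
            mul_lt_mul_of_pos_right e2 hgpos
        _ = 1 := by field_simp

/-! ### Near `1/2` -/

theorem I_near {y : ℝ} (hy : |y| ≤ 1 / 4) : |I (1 / 2 + y) - 2 * y ^ 2| ≤ 16 * |y| ^ 3 := by
  set u : ℝ := 2 * y with hu
  have hu1 : |u| ≤ 1 / 2 := by
    rw [hu, abs_mul, abs_two]
    linarith
  have hu' := abs_le.1 hu1
  have hpos1 : 0 < 1 + u := by linarith [hu'.1]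
  have hpos2 : 0 < 1 - u := by linarith [hu'.2]
  have e1 := Real.abs_log_sub_add_sum_range_le (x := u) (by linarith) 2
  have e2 := Real.abs_log_sub_add_sum_range_le (x := -u) (by rw [abs_neg]; linarith) 2
  have hb : |u| ^ 3 / (1 - |u|) ≤ 2 * |u| ^ 3 := by
    rw [div_le_iff₀ (by linarith)]
    have h0 : 0 ≤ |u| ^ 3 := by positivity
    have h1 := mul_le_mul_of_nonneg_left hu1 h0
    linarith
  simp only [Finset.sum_range_succ, Finset.sum_range_zero, abs_neg] at e1 e2
  norm_num at e1 e2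
  have f1 := abs_le.1 (e1.trans hb)
  have f2 := abs_le.1 (e2.trans hb)
  have hI : I (1 / 2 + y) = 1 / 2 * ((1 + u) * Real.log (1 + u) + (1 - u) * Real.log (1 - u)) := by
    have g1 : (1 / 2 + y : ℝ) = (1 + u) / 2 := by rw [hu]; ring
    have g2 : 1 - (1 + u) / 2 = (1 - u) / 2 := by ring
    rw [I, g1, g2, Real.log_div hpos1.ne' (by norm_num), Real.log_div hpos2.ne' (by norm_num)]
    ring
  have hy3 : 16 * |y| ^ 3 = 2 * |u| ^ 3 := by
    rw [hu, abs_mul, abs_two]
    ring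
  have hy2 : 2 * y ^ 2 = u ^ 2 / 2 := by
    rw [hu]
    ring
  rw [hI, hy3, hy2, abs_le]
  set l1 := Real.log (1 + u)
  set l2 := Real.log (1 - u)
  have p1 := mul_le_mul_of_nonneg_left f2.1 hpos1.le
  have p2 := mul_le_mul_of_nonneg_left f1.1 hpos2.le
  have p3 := mul_le_mul_of_nonneg_left f2.2 hpos1.le
  have p4 := mul_le_mul_of_nonneg_left f1.2 hpos2.le
  constructor
  · linarith
  · linarith

theorem near_lower {δ : ℝ} (hδ : 0 < δ) : ∃ α₀ : ℝ, α₀ < 1 / 2 ∧ ∀ α : ℝ, α₀ < α → α < 1 / 2 →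
    ∀ᶠ n : ℕ in atTop, (4 / 3 - δ) / (1 - 2 * α) ^ 2 * Real.log n ≤ F n α := by
  set η : ℝ := min 1 (δ / 10) with hη_def
  have hη : 0 < η := lt_min one_pos (by positivity)
  have hη1 : η ≤ 1 := min_le_left _ _
  have hηδ : η ≤ δ / 10 := min_le_right _ _
  refine ⟨1 / 2 - η / 24, by linarith, fun α h1 h2 => ?_⟩
  set e : ℝ := 1 - 2 * α with he
  have he0 : 0 < e := by linarith
  have he1 : e < η / 12 := by linarith
  rcases le_or_gt (4 / 3) δ with hδ1 | hδ1
  · filter_upwards [eventually_ge_atTop 1] with n hn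
    have h3 : 0 ≤ Real.log n := Real.log_natCast_nonneg n
    have h4 : (0 : ℝ) ≤ F n α := Nat.cast_nonneg _
    have h5 : (4 / 3 - δ) / e ^ 2 ≤ 0 := div_nonpos_of_nonpos_of_nonneg (by linarith) (by positivity)
    nlinarith
  set x : ℝ := 3 * e / 4 * (1 + η) with hx
  have hx0 : 0 < x := by positivity
  have hx1 : x ≤ η / 8 := by
    have h3 : x = 3 * e / 4 + 3 / 4 * (e * η) := by
      rw [hx]
      ring
    have h4 : e * η ≤ e * 1 := mul_le_mul_of_nonneg_left hη1 he0.le
    linarith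
  obtain ⟨K, hK⟩ := exists_nat_ge (2 / (e * η))
  have heη : 0 < e * η := mul_pos he0 hη
  have hK0 : (0 : ℝ) < K := lt_of_lt_of_le (by positivity) hK
  have hK1 : 1 ≤ K := by
    have : 0 < K := by exact_mod_cast hK0
    omega
  rw [div_le_iff₀ heη] at hK
  set b : ℕ → ℝ := fun j => if j < K then 1 / 2 + x * j / K else 0 with hb
  have hjK : ∀ j : ℕ, j < K → x * j / K ≤ x ∧ 0 ≤ x * j / K := by
    intro j hj
    have hj' : (j : ℝ) ≤ K := by exact_mod_cast hj.le
    constructor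
    · rw [div_le_iff₀ hK0]
      exact mul_le_mul_of_nonneg_left hj' hx0.le
    · positivity
  refine lower (by linarith) hK1 (b := b) ?_ ?_ ?_ ?_
  · intro j
    simp only [hb]
    split_ifs with hj
    · have := (hjK j hj).2
      linarith
    · exact le_rfl
  · intro j
    simp only [hb]
    split_ifs with hj
    · have := (hjK j hj).1
      linarith
    · exact zero_le_one
  · have e1 : ∑ j ∈ range K, (j : ℝ) * b j =
        1 / 2 * (K * (K - 1) / 2) + x / K * ((K - 1) * K * (2 * K - 1) / 6) := by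
      rw [← sum_id, ← sum_sq, Finset.mul_sum, Finset.mul_sum, ← Finset.sum_add_distrib]
      refine Finset.sum_congr rfl fun j hj => ?_
      simp only [hb, if_pos (Finset.mem_range.1 hj)]
      ring
    have e2 : x / K * ((K - 1) * K * (2 * K - 1) / 6) = x * (((K : ℝ) - 1) * (2 * K - 1) / 6) := by
      field_simp
    rw [e1, e2, hx]
    have hα' : 1 - α = 1 / 2 + e / 2 := by rw [he]; ring
    rw [hα']
    have h3 : 2 * (K : ℝ) ≤ e * η * K * K := by
      have := mul_le_mul_of_nonneg_right hK hK0.le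
      linarith
    have h4 : e * η * K ≤ e * K := by
      have := mul_le_mul_of_nonneg_right hη1 (mul_pos he0 hK0).le
      linarith
    have h5 : e * K ≤ K / 12 := by
      have := mul_le_mul_of_nonneg_right (show e ≤ 1 / 12 by linarith) hK0.le
      linarith
    have key : 1 / 2 * ((K : ℝ) * (K - 1) / 2) +
        3 * e / 4 * (1 + η) * (((K : ℝ) - 1) * (2 * K - 1) / 6) - (1 / 2 + e / 2) * K ^ 2 / 2 =
        e * η * K * K / 4 - K / 4 - 3 / 8 * (e * K) - 3 / 8 * (e * η * K) + e / 8 + e * η / 8 := by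
      ring
    linarith
  · have e1 : ∑ j ∈ range K, I (b j) ≤ (2 + 16 * x) * x ^ 2 * (K / 3) := by
      have e2 : ∀ j ∈ range K, I (b j) ≤ (2 + 16 * x) * (x ^ 2 / K ^ 2) * (j : ℝ) ^ 2 := by
        intro j hj
        have hj' := Finset.mem_range.1 hj
        simp only [hb, if_pos hj']
        obtain ⟨h3, h4⟩ := hjK j hj'
        have h5 := I_near (y := x * j / K) (by rw [abs_of_nonneg h4]; linarith)
        rw [abs_of_nonneg h4] at h5
        have h6 := (abs_le.1 h5).2
        have h7 : (x * j / K) ^ 3 ≤ x * (x * j / K) ^ 2 := by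
          rw [pow_succ, mul_comm]
          exact mul_le_mul_of_nonneg_right h3 (sq_nonneg _)
        have h8 : (x * j / K) ^ 2 = x ^ 2 / K ^ 2 * (j : ℝ) ^ 2 := by
          rw [div_pow, mul_pow]
          ring
        have h9 : (2 + 16 * x) * (x ^ 2 / K ^ 2) * (j : ℝ) ^ 2 =
            2 * (x * j / K) ^ 2 + 16 * (x * (x * j / K) ^ 2) := by
          rw [h8]
          ring
        rw [h9]
        linarith
      refine (Finset.sum_le_sum e2).trans ?_
      rw [← Finset.mul_sum, sum_sq]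
      have h3 : ((K : ℝ) - 1) * K * (2 * K - 1) / 6 ≤ K ^ 3 / 3 := by
        have h1K : (1 : ℝ) ≤ K := by exact_mod_cast hK1
        have h2K : ((K : ℝ) - 1) * K * (2 * K - 1) / 6 = K ^ 3 / 3 - K * (3 * K - 1) / 6 := by ring
        have h3K : 0 ≤ (K : ℝ) * (3 * K - 1) / 6 :=
          div_nonneg (mul_nonneg hK0.le (by linarith)) (by norm_num)
        linarith
      calc (2 + 16 * x) * (x ^ 2 / K ^ 2) * (((K : ℝ) - 1) * K * (2 * K - 1) / 6)
          ≤ (2 + 16 * x) * (x ^ 2 / K ^ 2) * (K ^ 3 / 3) :=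
            mul_le_mul_of_nonneg_left h3 (by positivity)
        _ = (2 + 16 * x) * x ^ 2 * (K / 3) := by
          field_simp
    have hc0 : 0 ≤ (4 / 3 - δ) / e ^ 2 := div_nonneg (by linarith) (by positivity)
    have h3 : (4 / 3 - δ) / e ^ 2 * (2 * ((2 + 16 * x) * x ^ 2 * (K / 3))) < K := by
      have h4 : (4 / 3 - δ) / e ^ 2 * (2 * ((2 + 16 * x) * x ^ 2 * (K / 3))) =
          (4 / 3 - δ) * (3 / 4) * (1 + 8 * x) * (1 + η) ^ 2 * K := by
        have hx2 : x ^ 2 = 9 * e ^ 2 / 16 * (1 + η) ^ 2 := by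
          rw [hx]
          ring
        rw [hx2]
        field_simp
        ring
      rw [h4]
      have h5 : (4 / 3 - δ) * (3 / 4) * (1 + 8 * x) * (1 + η) ^ 2 ≤
          (4 / 3 - δ) * (3 / 4) * (1 + η) * (1 + η) ^ 2 := by
        have : 0 ≤ 4 / 3 - δ := by linarith
        gcongr
        linarith
      have h6 : (1 + η) ^ 3 ≤ 1 + 7 * η := by
        have q1 : η ^ 2 ≤ η := by
          have := mul_le_mul_of_nonneg_right hη1 hη.le
          linarith
        have q2 : η ^ 3 ≤ η := by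
          have := mul_le_mul_of_nonneg_right hη1 (sq_nonneg η)
          linarith
        have q3 : (1 + η) ^ 3 = 1 + 3 * η + 3 * η ^ 2 + η ^ 3 := by ring
        linarith
      have h7 : (4 / 3 - δ) * (3 / 4) * (1 + η) * (1 + η) ^ 2 < 1 := by
        have e3 : (4 / 3 - δ) * (3 / 4) * (1 + η) * (1 + η) ^ 2 =
            (4 / 3 - δ) * (3 / 4) * (1 + η) ^ 3 := by ring
        rw [e3]
        have e4 : (4 / 3 - δ) * (3 / 4) * (1 + η) ^ 3 ≤ (4 / 3 - δ) * (3 / 4) * (1 + 7 * η) :=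
          mul_le_mul_of_nonneg_left h6 (by linarith)
        have e5 : (4 / 3 - δ) * (3 / 4) * (1 + 7 * η) =
            1 + 7 * η - 3 / 4 * δ - 21 / 4 * (δ * η) := by ring
        have e6 : 0 < δ * η := mul_pos hδ hη
        linarith
      calc (4 / 3 - δ) * (3 / 4) * (1 + 8 * x) * (1 + η) ^ 2 * K < 1 * K :=
            mul_lt_mul_of_pos_right (h5.trans_lt h7) hK0
        _ = K := one_mul _
    refine lt_of_le_of_lt ?_ h3
    exact mul_le_mul_of_nonneg_left (mul_le_mul_of_nonneg_left e1 (by norm_num)) hc0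

theorem near_upper {δ : ℝ} (hδ : 0 < δ) : ∃ α₀ : ℝ, 0 < α₀ ∧ α₀ < 1 / 2 ∧ ∀ α : ℝ, α₀ < α →
    α < 1 / 2 → ∀ᶠ n : ℕ in atTop, (F n α : ℝ) ≤ (4 + δ) / (1 - 2 * α) ^ 2 * Real.log n := by
  set e₀ : ℝ := min (1 / 2) (δ / (20 + 5 * δ)) with he₀
  have he₀0 : 0 < e₀ := lt_min (by norm_num) (by positivity)
  have he₀1 : e₀ ≤ 1 / 2 := min_le_left _ _
  have he₀2 : e₀ ≤ δ / (20 + 5 * δ) := min_le_right _ _
  refine ⟨1 / 2 - e₀ / 2, by linarith, by linarith, fun α h1 h2 => ?_⟩
  set e : ℝ := 1 - 2 * α with he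
  have he0 : 0 < e := by linarith
  have he1 : e < e₀ := by linarith
  refine upper_log (by linarith) h2 ?_
  have hI := I_pos h2.ne
  have h3 := I_near (y := -(e / 2)) (by rw [abs_neg, abs_of_pos (by positivity)]; linarith)
  have h4 : (1 / 2 : ℝ) + -(e / 2) = α := by rw [he]; ring
  rw [h4, abs_neg, abs_of_pos (by positivity : 0 < e / 2)] at h3
  have h5 := (abs_le.1 h3).1
  have h6 : e ^ 2 / 2 - 2 * e ^ 3 ≤ I α := by
    have : (-(e / 2)) ^ 2 = e ^ 2 / 4 := by ring
    have h3' : (e / 2) ^ 3 = e ^ 3 / 8 := by ring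
    rw [this, h3'] at h5
    linarith
  have h7 : e * (20 + 5 * δ) < δ := by
    have := he1.trans_le he₀2
    rwa [lt_div_iff₀ (by positivity)] at this
  rw [div_lt_iff₀ hI, div_mul_eq_mul_div, lt_div_iff₀ (by positivity)]
  have h8 : (4 + δ) * (e ^ 2 / 2 - 2 * e ^ 3) ≤ (4 + δ) * I α :=
    mul_le_mul_of_nonneg_left h6 (by linarith)
  have h9 : 2 * e ^ 2 < (4 + δ) * (e ^ 2 / 2 - 2 * e ^ 3) := by
    have h10 : (4 + δ) * (e ^ 2 / 2 - 2 * e ^ 3) - 2 * e ^ 2 =
      e ^ 2 * (δ / 2 - 8 * e - 2 * δ * e) := by ring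
    have h11 : 0 < δ / 2 - 8 * e - 2 * δ * e := by
      have : 0 < δ * e := mul_pos hδ he0
      linarith
    have h12 : 0 < e ^ 2 * (δ / 2 - 8 * e - 2 * δ * e) := by positivity
    linarith
  linarith

end Pool.Agent.DR
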