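import Pool.Agent.Lib_helper71.DR.Block

/-!
# The graph discrepancy Ramsey function: the union of the blocks
-/

set_option autoImplicit false

namespace Pool.Agent.DR

open Finset

variable {ι : Type*} [DecidableEq ι]

/-- the number of pairs of the class `c` inside `X` -/
def eC (A : Finset (Finset ι)) (c : Bool) (X : Finset ι) : ℕ :=
  ((X.powersetCard 2).filter fun e => (e ∈ A ↔ c = true)).card

theorem edge_union (A : Finset (Finset ι)) (c : Bool) {Y X : Finset ι} (h : Disjoint Y X) :
    eC A c X + ∑ x ∈ X, (Y.filter fun y => R A c x y).card ≤ eC A c (Y ∪ X) := by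
  set E1 := (X.powersetCard 2).filter fun e => (e ∈ A ↔ c = true) with hE1
  set D := X.sigma fun x => Y.filter fun y => R A c x y with hD
  set g : (Σ _ : ι, ι) → Finset ι := fun p => {p.1, p.2} with hg
  have hmem : ∀ p ∈ D, p.1 ∈ X ∧ p.2 ∈ Y ∧ R A c p.1 p.2 := by
    intro p hp
    rw [hD, Finset.mem_sigma, Finset.mem_filter] at hp
    exact ⟨hp.1, hp.2.1, hp.2.2⟩
  have hinj : Set.InjOn g (D : Set (Σ _ : ι, ι)) := by
    rintro ⟨x, y⟩ hp ⟨x', y'⟩ hp' heq
    obtain ⟨h1, h2, -⟩ := hmem _ hp
    obtain ⟨h1', h2', -⟩ := hmem _ hp'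
    simp only [hg] at heq h1 h2 h1' h2'
    have a1 : x ∈ ({x', y'} : Finset ι) := heq ▸ Finset.mem_insert_self _ _
    have a2 : y ∈ ({x', y'} : Finset ι) := heq ▸ Finset.mem_insert_of_mem (Finset.mem_singleton_self _)
    rw [Finset.mem_insert, Finset.mem_singleton] at a1 a2
    have b1 : x = x' := by
      rcases a1 with a1 | a1
      · exact a1
      · exact absurd (a1 ▸ h1) (Finset.disjoint_left.1 h h2')
    have b2 : y = y' := by
      rcases a2 with a2 | a2
      · exact absurd (a2 ▸ h1') (fun hh => Finset.disjoint_left.1 h h2 (a2 ▸ h1'))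
      · exact a2
    rw [b1, b2]
  have hcardD : (D.image g).card = ∑ x ∈ X, (Y.filter fun y => R A c x y).card := by
    rw [Finset.card_image_of_injOn hinj, hD, Finset.card_sigma]
  have hdisj : Disjoint E1 (D.image g) := by
    rw [Finset.disjoint_left]
    intro e he he'
    obtain ⟨p, hp, rfl⟩ := Finset.mem_image.1 he'
    obtain ⟨-, h2, -⟩ := hmem _ hp
    have h3 := (Finset.mem_powersetCard.1 (Finset.mem_filter.1 he).1).1
    have h4 : p.2 ∈ X := h3 (by simp [hg])
    exact Finset.disjoint_left.1 h h2 h4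
  have hsub : E1 ∪ D.image g ⊆
      ((Y ∪ X).powersetCard 2).filter fun e => (e ∈ A ↔ c = true) := by
    intro e he
    rcases Finset.mem_union.1 he with he | he
    · obtain ⟨h1, h2⟩ := Finset.mem_filter.1 he
      exact Finset.mem_filter.2 ⟨Finset.powersetCard_mono Finset.subset_union_right h1, h2⟩
    · obtain ⟨p, hp, rfl⟩ := Finset.mem_image.1 he
      obtain ⟨h1, h2, h3⟩ := hmem _ hp
      refine Finset.mem_filter.2 ⟨Finset.mem_powersetCard.2 ⟨?_, ?_⟩, h3⟩
      · intro z hz
        simp only [hg, Finset.mem_insert, Finset.mem_singleton] at hz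
        rcases hz with rfl | rfl
        · exact Finset.mem_union_right _ h1
        · exact Finset.mem_union_left _ h2
      · refine Finset.card_pair ?_
        rintro heq
        exact Finset.disjoint_left.1 h h2 (heq ▸ h1)
  have := Finset.card_le_card hsub
  rw [Finset.card_union_of_disjoint hdisj, hcardD] at this
  exact this

/-- the loss of one step -/
noncomputable def L (s : ℕ) (κ : ℕ → ℕ) (j : ℕ) : ℝ := 2 ^ (s + 3) / (s.choose (κ j) : ℝ)

theorem one_le_L {s : ℕ} {κ : ℕ → ℕ} (hκ : ∀ j, κ j ≤ s) (j : ℕ) : 1 ≤ L s κ j := by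
  rw [L, one_le_div (by exact_mod_cast Nat.choose_pos (hκ j))]
  have h1 : s.choose (κ j) ≤ 2 ^ (s + 3) :=
    (Nat.choose_le_two_pow s (κ j)).trans (Nat.pow_le_pow_right (by norm_num) (by omega))
  exact_mod_cast h1

theorem one_le_prod_L {s : ℕ} {κ : ℕ → ℕ} (hκ : ∀ j, κ j ≤ s) (P : ℕ) :
    1 ≤ ∏ j ∈ range P, L s κ j := by
  induction P with
  | zero => simp
  | succ P ih =>
    rw [Finset.prod_range_succ]
    exact one_le_mul_of_one_le_of_one_le ih (one_le_L hκ P)

/-- The blocks: `p` or `q` blocks of one colour. -/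
theorem iter (A : Finset (Finset ι)) {s : ℕ} (hs : 1 ≤ s) {κ : ℕ → ℕ} (hκ : ∀ j, κ j ≤ s) :
    ∀ N P Q : ℕ, P + Q = N → ∀ V : Finset ι,
      16 * (s : ℝ) ^ 2 * ((∏ j ∈ range P, L s κ j) * ∏ j ∈ range Q, L s κ j) ≤ V.card →
      ∃ c : Bool, ∃ X ⊆ V, X.card = s * (if c = true then P else Q) ∧
        s * ∑ j ∈ range (if c = true then P else Q), j * κ j ≤ eC A c X := by
  intro N
  induction N with
  | zero =>
    intro P Q hPQ V _
    have hP : P = 0 := by omega
    subst hP
    exact ⟨true, ∅, Finset.empty_subset _, by simp, by simp⟩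
  | succ N ih =>
    intro P Q hPQ V hV
    rcases P with _ | p
    · exact ⟨true, ∅, Finset.empty_subset _, by simp, by simp⟩
    rcases Q with _ | q
    · exact ⟨false, ∅, Finset.empty_subset _, by simp, by simp⟩
    have hP1 := one_le_prod_L (s := s) hκ (p + 1)
    have hQ1 := one_le_prod_L (s := s) hκ (q + 1)
    have hs' : (1 : ℝ) ≤ s := by exact_mod_cast hs
    have hVc : 4 * s ^ 2 + 1 ≤ V.card := by
      have h1 : (1 : ℝ) ≤ (∏ j ∈ range (p + 1), L s κ j) * ∏ j ∈ range (q + 1), L s κ j :=
        one_le_mul_of_one_le_of_one_le hP1 hQ1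
      have h2 : (4 : ℝ) * s ^ 2 + 1 ≤ V.card := by
        refine le_trans ?_ hV
        nlinarith
      exact_mod_cast h2
    obtain ⟨c, Y, hYV, hYs, V', hV', hgood, hcard⟩ := block A V hs hVc
      (fun c => κ (if c = true then p else q)) (fun c => hκ _)
    have hV'V : V' ⊆ V := hV'.trans Finset.sdiff_subset
    have hcardR : (V.card : ℝ) ≤ V'.card * L s κ (if c = true then p else q) := by
      have hpos : (0 : ℝ) < (s.choose (κ (if c = true then p else q)) : ℝ) := by
        exact_mod_cast Nat.choose_pos (hκ _)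
      rw [L, mul_div_assoc', le_div_iff₀ hpos]
      exact_mod_cast hcard
    have hdisjY : ∀ X' ⊆ V', Disjoint Y X' := fun X' hX' =>
      Finset.disjoint_of_subset_right (hX'.trans hV') Finset.disjoint_sdiff
    -- extension of a set of the same colour
    have hext : ∀ X' ⊆ V', ∀ r : ℕ, r = (if c = true then p else q) → X'.card = s * r →
        s * ∑ j ∈ range r, j * κ j ≤ eC A c X' →
        ∃ X ⊆ V, X.card = s * (r + 1) ∧ s * ∑ j ∈ range (r + 1), j * κ j ≤ eC A c X := by
      intro X' hX' r hr hX'c hX'e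
      refine ⟨Y ∪ X', Finset.union_subset hYV (hX'.trans hV'V), ?_, ?_⟩
      · rw [Finset.card_union_of_disjoint (hdisjY X' hX'), hYs, hX'c]
        ring
      · refine le_trans ?_ (edge_union A c (hdisjY X' hX'))
        have h1 : X'.card * κ r ≤ ∑ x ∈ X', (Y.filter fun y => R A c x y).card := by
          rw [← smul_eq_mul, ← Finset.sum_const]
          refine Finset.sum_le_sum fun x hx => ?_
          have := hgood x (hX' hx)
          rw [← hr] at this
          exact this
        rw [Finset.sum_range_succ, mul_add]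
        rw [hX'c] at h1
        have h2 : s * (r * κ r) = s * r * κ r := by ring
        rw [h2]
        exact Nat.add_le_add hX'e h1
    cases c with
    | true =>
      simp only [if_true] at hcardR hext
      have hIH := ih p (q + 1) (by omega) V' (by
        rw [Finset.prod_range_succ] at hV
        have hLp : 1 ≤ L s κ p := one_le_L hκ p
        have h3 := hV.trans hcardR
        have h4 : 16 * (s : ℝ) ^ 2 * ((∏ j ∈ range p, L s κ j) * ∏ j ∈ range (q + 1), L s κ j) *
            L s κ p ≤ V'.card * L s κ p := by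
          refine le_trans (le_of_eq ?_) h3
          ring
        exact le_of_mul_le_mul_right h4 (by linarith))
      obtain ⟨c', X', hX', hX'c, hX'e⟩ := hIH
      cases c' with
      | true =>
        simp only [if_true] at hX'c hX'e
        obtain ⟨X, hX, hXc, hXe⟩ := hext X' hX' p rfl hX'c hX'e
        exact ⟨true, X, hX, by simpa using hXc, by simpa using hXe⟩
      | false =>
        exact ⟨false, X', hX'.trans hV'V, hX'c, hX'e⟩
    | false =>
      simp only [Bool.false_eq_true, if_false] at hcardR hext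
      have hIH := ih (p + 1) q (by omega) V' (by
        rw [Finset.prod_range_succ _ q] at hV
        have hLq : 1 ≤ L s κ q := one_le_L hκ q
        have h3 := hV.trans hcardR
        have h4 : 16 * (s : ℝ) ^ 2 * ((∏ j ∈ range (p + 1), L s κ j) * ∏ j ∈ range q, L s κ j) *
            L s κ q ≤ V'.card * L s κ q := by
          refine le_trans (le_of_eq ?_) h3
          ring
        exact le_of_mul_le_mul_right h4 (by linarith))
      obtain ⟨c', X', hX', hX'c, hX'e⟩ := hIH
      cases c' with
      | true =>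
        exact ⟨true, X', hX'.trans hV'V, hX'c, hX'e⟩
      | false =>
        simp only [Bool.false_eq_true, if_false] at hX'c hX'e
        obtain ⟨X, hX, hXc, hXe⟩ := hext X' hX' q rfl hX'c hX'e
        exact ⟨false, X, hX, by simpa using hXc, by simpa using hXe⟩

/-- the finite form of the lower bound -/
theorem lower_finite {n K s : ℕ} {α : ℝ} (hs : 1 ≤ s) {κ : ℕ → ℕ} (hκ : ∀ j, κ j ≤ s)
    (hn : 16 * (s : ℝ) ^ 2 * ((∏ j ∈ range K, L s κ j) * ∏ j ∈ range K, L s κ j) ≤ n)
    (hsum : (1 - α) * ((s * K).choose 2 : ℕ) ≤ (s * ∑ j ∈ range K, j * κ j : ℕ)) :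
    s * K < F n α := by
  by_contra hcon
  push Not at hcon
  obtain ⟨-, A, hA⟩ := F_mem n α
  obtain ⟨c, X, -, hXc, hXe⟩ := iter A hs hκ (K + K) K K rfl (univ : Finset (Fin n)) (by
    rw [Finset.card_univ, Fintype.card_fin]
    exact hn)
  rw [ite_self] at hXc hXe
  obtain ⟨h1, h2⟩ := hA X (by rw [hXc]; exact hcon)
  have hc : (X.powersetCard 2).card = X.card.choose 2 := Finset.card_powersetCard 2 X
  have hsplit := Finset.card_filter_add_card_filter_not (s := X.powersetCard 2) (fun e => e ∈ A)
  rw [hc] at hsplit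
  have hsplit' : (((X.powersetCard 2).filter fun e => e ∈ A).card : ℝ) +
      ((X.powersetCard 2).filter fun e => e ∉ A).card = (X.card.choose 2 : ℕ) := by
    exact_mod_cast hsplit
  have hXe' : ((s * ∑ j ∈ range K, j * κ j : ℕ) : ℝ) ≤ eC A c X := by exact_mod_cast hXe
  rw [hXc] at h1 h2 hsplit'
  cases c with
  | true =>
    have e1 : eC A true X = ((X.powersetCard 2).filter fun e => e ∈ A).card := by
      rw [eC]
      simp
    rw [e1] at hXe'
    linarith
  | false =>
    have e1 : eC A false X = ((X.powersetCard 2).filter fun e => e ∉ A).card := by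
      rw [eC]
      simp
    rw [e1] at hXe'
    linarith

end Pool.Agent.DR
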